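import Pool.Agent.helper43.BMH.Top

/-!
# The Hadamard bound for the distance of `ℓ_p^d` and `ℓ_q^d` is never asymptotically sharp

For `1 ≤ p < 2 < q ≤ ∞` a Hadamard matrix of order `d` gives the classical upper bound
`max (1/p - 1/2, 1/2 - 1/q) log d` for the distance of `L(d;p)` and `L(d;q)`. The theorem improves
it, for every large `d`, by a constant `δ > 0` which does not depend on `d`.
-/

open scoped ENNReal

namespace Pool.Agent.Results.MP_cef0b4_gt.HadamardGap

open Pool.Agent.helper75.BM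

theorem result (p q : ℝ≥0∞) (hp : 1 ≤ p) (hp2 : p < 2) (hq : 2 < q) :
    ∃ δ : ℝ, 0 < δ ∧ ∃ d₀ : ℕ, ∀ d : ℕ, d₀ ≤ d →
      dBM (L d p) (L d q) ≤
        max ((1 / p).toReal - 1 / 2) (1 / 2 - (1 / q).toReal) * Real.log (d : ℝ) - δ := by
  have h1 : Fact (1 ≤ p) := ⟨hp⟩
  have h2 : Fact (1 ≤ q) := ⟨hp.trans (hp2.le.trans hq.le)⟩
  exact Pool.Agent.helper43.BMH.top_FIN p q hp2 hq

end Pool.Agent.Results.MP_cef0b4_gt.HadamardGap
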