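import Pool.Agent.helper43.KG.Top

/-!
# The Khinchine lower bound for the distance of `ℓ_p^d` and `ℓ_q^d` is never asymptotically sharp

Let `1 ≤ p < 2 < q ≤ ∞` and `1/r = 1 - 1/q`. Averaging over sign vectors gives the classical lower
bounds `(1/p - 1/2) log d + log ‖g‖_p - o(1)` and `(1/2 - 1/q) log d + log ‖g‖_r - o(1)` for the
distance of `L(d;p)` and `L(d;q)`, where `g` is a standard normal variable, so that
`‖g‖_s = (2^(s/2) Γ((s+1)/2) / √π)^(1/s)`. The theorem improves both, for every large `d`, by a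
constant `δ > 0` which does not depend on `d`.
-/

open scoped ENNReal

namespace Pool.Agent.Results.MP_cef0b4_gt.KhinchineGap

open Pool.Agent.helper75.BM

theorem result (p q : ℝ≥0∞) (hp : 1 ≤ p) (hp2 : p < 2) (hq : 2 < q) :
    ∃ δ : ℝ, 0 < δ ∧ ∃ d₀ : ℕ, ∀ d : ℕ, d₀ ≤ d →
      ((1 / p).toReal - 1 / 2) * Real.log d + (1 / p).toReal *
          Real.log (2 ^ (p.toReal / 2) * Real.Gamma ((p.toReal + 1) / 2) / Real.sqrt Real.pi) + δ ≤
        dBM (L d p) (L d q) ∧
      (1 / 2 - (1 / q).toReal) * Real.log d + (1 - (1 / q).toReal) *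
          Real.log (2 ^ ((1 - (1 / q).toReal)⁻¹ / 2) *
            Real.Gamma (((1 - (1 / q).toReal)⁻¹ + 1) / 2) / Real.sqrt Real.pi) + δ ≤
        dBM (L d p) (L d q) := by
  have h1 : Fact (1 ≤ p) := ⟨hp⟩
  have h2 : Fact (1 ≤ q) := ⟨hp.trans (hp2.le.trans hq.le)⟩
  exact Pool.Agent.helper43.KG.top_fin p q hp2 hq

end Pool.Agent.Results.MP_cef0b4_gt.KhinchineGap
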