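import Pool.Agent.helper76.BM.Main

/-!
# The Banach-Mazur distance of `ℓ_p` and `ℓ_q` in the plane, `p < 2 < q`

The exact value of the distance between the balls `L(2;p)` and `L(2;q)` for all
`1 ≤ p < 2 < q ≤ ∞`. It is attained by the rotation by 45 degrees.
-/

namespace Pool.Agent.Results.MP_cef0b4_gt.PlanarExact

open Pool.Agent.helper76.BM
open scoped ENNReal

theorem result : ∀ p q : ℝ≥0∞, 1 ≤ p → p < 2 → 2 < q →
    dBM (L 2 p) (L 2 q) =
      Real.log (⨆ t : Set.Icc (0 : ℝ) 1, nrm p (1 + t) (1 - t) / nrm q 1 t)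
        - min (1 / p.toReal) (1 - 1 / q.toReal) * Real.log 2 :=
  fun _ _ hp1 hp2 hq => main hp1 hp2 hq

end Pool.Agent.Results.MP_cef0b4_gt.PlanarExact
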