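import Pool.Agent.helper75.BM.Defs
import Pool.Agent.helper75.BM.Strict

open scoped ENNReal

namespace Pool.Agent.Results.MP_cef0b4_gt.TriangleStrict

open Pool.Agent.helper75.BM

/-- In every dimension `d ≥ 2` and for all `1 ≤ p < 2 < q ≤ ∞` the triangle inequality through the
Euclidean ball is strict, and the distance is at least the planar distance. -/
theorem result (p q : ℝ≥0∞) (hp : 1 ≤ p) (hp2 : p < 2) (hq : 2 < q) (d : ℕ) (hd : 2 ≤ d) :
    dBM (L 2 p) (L 2 q) ≤ dBM (L d p) (L d q) ∧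
      dBM (L d p) (L d q) < ((1 / p).toReal - (1 / q).toReal) * Real.log d := by
  have h1 : Fact (1 ≤ p) := ⟨hp⟩
  have h2 : Fact (1 ≤ q) := ⟨hp.trans (hp2.le.trans hq.le)⟩
  refine ⟨?_, dBM_lt hp2 hq hd⟩
  rw [dBM_two hp2 hq]
  exact le_dBM hp2 hq hd

end Pool.Agent.Results.MP_cef0b4_gt.TriangleStrict
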